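import Mathlib

/-! TEAM-U, module G: a small element of an ideal (Minkowski), in sup norm. -/

set_option autoImplicit false

open NumberField NumberField.InfinitePlace NumberField.mixedEmbedding Module MeasureTheory
open scoped nonZeroDivisors NNReal ENNReal

namespace Pool.Agent.TeamU

variable (K : Type*) [Field K] [NumberField K]

/-- Minkowski: if `N(I) * sqrt |disc K| < c ^ [K:ℚ]` then the ideal `I` contains a nonzero element
all of whose absolute values are `< c`. -/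
theorem exists_small_mem_ideal (I : Ideal (𝓞 K)) (hI : I ≠ ⊥) (c : ℝ≥0)
    (hc : (Ideal.absNorm I : ℝ) * √|(discr K : ℝ)| < (c : ℝ) ^ finrank ℚ K) :
    ∃ x ∈ I, x ≠ 0 ∧ ∀ w : InfinitePlace K, w (x : K) < c := by
  classical
  have hI' : (I : FractionalIdeal (𝓞 K)⁰ K) ≠ 0 := FractionalIdeal.coeIdeal_ne_zero.mpr hI
  let J : (FractionalIdeal (𝓞 K)⁰ K)ˣ := Units.mk0 (I : FractionalIdeal (𝓞 K)⁰ K) hI'
  have hN : finrank ℚ K = nrRealPlaces K + 2 * nrComplexPlaces K :=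
    (card_add_two_mul_card_eq_rank K).symm
  have hprod : ∏ w : InfinitePlace K, (c : ℝ≥0) ^ (mult w) = c ^ finrank ℚ K := by
    rw [Finset.prod_pow_eq_pow_sum, sum_mult_eq]
  have h : minkowskiBound K J < volume (convexBodyLT K (fun _ => c)) := by
    rw [minkowskiBound, volume_fundamentalDomain_fractionalIdealLatticeBasis,
      volume_fundamentalDomain_latticeBasis, convexBodyLT_volume, mixedEmbedding.finrank,
      hprod]
    have h1 : (FractionalIdeal.absNorm J.1 : ℚ) = (Ideal.absNorm I : ℚ) := by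
      rw [Units.val_mk0, FractionalIdeal.coeIdeal_absNorm]
    rw [h1]
    have h2 : ENNReal.ofReal ((Ideal.absNorm I : ℚ) : ℝ) = ((Ideal.absNorm I : ℝ≥0) : ℝ≥0∞) := by
      rw [Rat.cast_natCast, ENNReal.ofReal_natCast]; simp
    rw [h2]
    have h3 : ((2 : ℝ≥0∞)⁻¹ ^ nrComplexPlaces K) = (((2 : ℝ≥0)⁻¹ ^ nrComplexPlaces K : ℝ≥0) : ℝ≥0∞) := by
      rw [ENNReal.coe_pow, ENNReal.coe_inv two_ne_zero]; rfl
    rw [h3, show (2 : ℝ≥0∞) = ((2 : ℝ≥0) : ℝ≥0∞) from rfl, ← ENNReal.coe_pow, ← ENNReal.coe_mul,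
      ← ENNReal.coe_mul, ← ENNReal.coe_mul, ← ENNReal.coe_mul, ENNReal.coe_lt_coe,
      ← NNReal.coe_lt_coe]
    push_cast
    rw [Int.norm_eq_abs, NNReal.coe_real_pi]
    have h5 : (2 : ℝ)⁻¹ ^ nrComplexPlaces K * 2 ^ finrank ℚ K =
        2 ^ nrRealPlaces K * 2 ^ nrComplexPlaces K := by
      rw [hN, pow_add, pow_mul', sq, ← mul_assoc, mul_comm ((2 : ℝ)⁻¹ ^ nrComplexPlaces K),
        inv_pow]
      field_simp
    calc (Ideal.absNorm I : ℝ) * ((2 : ℝ)⁻¹ ^ nrComplexPlaces K * √|(discr K : ℝ)|) *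
          2 ^ finrank ℚ K
        = ((Ideal.absNorm I : ℝ) * √|(discr K : ℝ)|) *
          ((2 : ℝ)⁻¹ ^ nrComplexPlaces K * 2 ^ finrank ℚ K) := by ring
      _ = ((Ideal.absNorm I : ℝ) * √|(discr K : ℝ)|) *
          (2 ^ nrRealPlaces K * 2 ^ nrComplexPlaces K) := by rw [h5]
      _ < (c : ℝ) ^ finrank ℚ K * (2 ^ nrRealPlaces K * 2 ^ nrComplexPlaces K) := by
          apply mul_lt_mul_of_pos_right hc; positivity
      _ ≤ (c : ℝ) ^ finrank ℚ K * (2 ^ nrRealPlaces K * Real.pi ^ nrComplexPlaces K) := by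
          gcongr
          exact Real.two_le_pi
      _ = 2 ^ nrRealPlaces K * Real.pi ^ nrComplexPlaces K * (c : ℝ) ^ finrank ℚ K := by ring
  obtain ⟨a, ha, ha0, hw⟩ := exists_ne_zero_mem_ideal_lt K J h
  rw [Units.val_mk0, FractionalIdeal.mem_coeIdeal] at ha
  obtain ⟨x, hx, rfl⟩ := ha
  refine ⟨x, hx, ?_, fun w => hw w⟩
  rintro rfl
  exact ha0 (map_zero _)

end Pool.Agent.TeamU
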