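import Mathlib
import Pool.Agent.H9.Lib.R_seed8.TeamU.BDefs

/-! TEAM-U: Galois action on the primes of a number field. -/

open NumberField IsDedekindDomain Module

namespace Pool.Agent.TeamU

/-! ### Transport of primes and valuations along a field isomorphism -/

section equiv

variable {L L' : Type*} [Field L] [NumberField L] [Field L'] [NumberField L']

/-- Transport of a prime along a field isomorphism. -/
noncomputable def actE (e : L ≃+* L') (P : HeightOneSpectrum (𝓞 L)) : HeightOneSpectrum (𝓞 L') :=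
  HeightOneSpectrum.equivOfRingEquiv (RingOfIntegers.mapRingEquiv e) P

theorem mem_actE (e : L ≃+* L') (P : HeightOneSpectrum (𝓞 L)) (x : 𝓞 L') :
    x ∈ (actE e P).asIdeal ↔ (RingOfIntegers.mapRingEquiv e).symm x ∈ P.asIdeal := Iff.rfl

theorem actE_asIdeal (e : L ≃+* L') (P : HeightOneSpectrum (𝓞 L)) :
    (actE e P).asIdeal = P.asIdeal.map (RingOfIntegers.mapRingEquiv e : 𝓞 L →+* 𝓞 L') := by
  exact (Ideal.map_comap_of_equiv (RingOfIntegers.mapRingEquiv e)).symm

theorem mem_actE_pow (e : L ≃+* L') (P : HeightOneSpectrum (𝓞 L)) (n : ℕ) (x : 𝓞 L) :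
    RingOfIntegers.mapRingEquiv e x ∈ (actE e P).asIdeal ^ n ↔ x ∈ P.asIdeal ^ n := by
  rw [actE_asIdeal, ← Ideal.map_pow]
  constructor
  · intro h
    have h2 := Ideal.mem_map_of_mem ((RingOfIntegers.mapRingEquiv e).symm : 𝓞 L' →+* 𝓞 L) h
    rw [Ideal.map_map] at h2
    simpa using h2
  · intro h
    exact Ideal.mem_map_of_mem _ h

theorem intValuation_actE (e : L ≃+* L') (P : HeightOneSpectrum (𝓞 L)) (x : 𝓞 L) :
    (actE e P).intValuation (RingOfIntegers.mapRingEquiv e x) = P.intValuation x := by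
  rcases eq_or_ne x 0 with rfl | hx
  · simp
  · have hx' : RingOfIntegers.mapRingEquiv e x ≠ 0 := by simpa using hx
    rw [HeightOneSpectrum.intValuation_eq_exp_neg_multiplicity _ hx,
      HeightOneSpectrum.intValuation_eq_exp_neg_multiplicity _ hx']
    congr 3
    refine multiplicity_eq_of_emultiplicity_eq (emultiplicity_eq_emultiplicity_iff.mpr fun n => ?_)
    rw [Ideal.dvd_span_singleton, Ideal.dvd_span_singleton]
    exact mem_actE_pow e P n x

theorem valuation_actE (e : L ≃+* L') (P : HeightOneSpectrum (𝓞 L)) (x : L) :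
    (actE e P).valuation L' (e x) = P.valuation L x := by
  obtain ⟨a, b, hb, rfl⟩ := IsFractionRing.div_surjective (A := 𝓞 L) x
  rw [map_div₀, map_div₀, map_div₀]
  have h : ∀ a : 𝓞 L, e (algebraMap (𝓞 L) L a) =
      algebraMap (𝓞 L') L' (RingOfIntegers.mapRingEquiv e a) := fun a => rfl
  rw [h, h, HeightOneSpectrum.valuation_of_algebraMap, HeightOneSpectrum.valuation_of_algebraMap,
    HeightOneSpectrum.valuation_of_algebraMap, HeightOneSpectrum.valuation_of_algebraMap,
    intValuation_actE, intValuation_actE]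

end equiv

/-! ### Galois action -/

section gal

variable {k L : Type*} [Field k] [Field L] [NumberField L] [Algebra k L]

/-- action of a field automorphism on the primes. -/
noncomputable def act (σ : L ≃ₐ[k] L) (P : HeightOneSpectrum (𝓞 L)) : HeightOneSpectrum (𝓞 L) :=
  actE σ.toRingEquiv P

theorem mem_act (σ : L ≃ₐ[k] L) (P : HeightOneSpectrum (𝓞 L)) (x : 𝓞 L) :
    x ∈ (act σ P).asIdeal ↔
      (RingOfIntegers.mapRingEquiv σ.toRingEquiv).symm x ∈ P.asIdeal := Iff.rfl

theorem act_one (P : HeightOneSpectrum (𝓞 L)) : act (1 : L ≃ₐ[k] L) P = P := by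
  ext x
  rw [mem_act]
  rfl

theorem act_mul (σ τ : L ≃ₐ[k] L) (P : HeightOneSpectrum (𝓞 L)) :
    act (σ * τ) P = act σ (act τ P) := by
  ext x
  rw [mem_act, mem_act, mem_act]
  rfl

/-- the action as an instance (use `letI := galMulAction k L`). -/
@[reducible] noncomputable def galMulAction (k L : Type*) [Field k] [Field L] [NumberField L] [Algebra k L] :
    MulAction (L ≃ₐ[k] L) (HeightOneSpectrum (𝓞 L)) where
  smul σ P := act σ P
  one_smul P := act_one P
  mul_smul σ τ P := act_mul σ τ P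

/-- valuations and the Galois action. -/
theorem val_act (σ : L ≃ₐ[k] L) (P : HeightOneSpectrum (𝓞 L)) (x : L) :
    (act σ P).valuation L (σ x) = P.valuation L x :=
  valuation_actE σ.toRingEquiv P x

theorem val_act' (σ : L ≃ₐ[k] L) (P : HeightOneSpectrum (𝓞 L)) (x : L) :
    (act σ P).valuation L x = P.valuation L (σ.symm x) := by
  conv_lhs => rw [← σ.apply_symm_apply x]
  exact val_act σ P _

variable [NumberField k]

theorem over_act (σ : L ≃ₐ[k] L) {P : HeightOneSpectrum (𝓞 L)} {v : HeightOneSpectrum (𝓞 k)}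
    (h : Over P v) : Over (act σ P) v := by
  unfold Over at h ⊢
  rw [← h]
  ext x
  rw [Ideal.mem_comap, Ideal.mem_comap, mem_act]
  have : (RingOfIntegers.mapRingEquiv σ.toRingEquiv).symm (algebraMap (𝓞 k) (𝓞 L) x) =
      algebraMap (𝓞 k) (𝓞 L) x := by
    apply RingOfIntegers.ext
    exact σ.symm.commutes (x : k)
  rw [this]

/-- Transitivity of the Galois group on the primes over `v`. -/
theorem exists_act [IsGalois k L] {P Q : HeightOneSpectrum (𝓞 L)} {v : HeightOneSpectrum (𝓞 k)}
    (hP : Over P v) (hQ : Over Q v) : ∃ σ : L ≃ₐ[k] L, act σ P = Q := by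
  have h1 : P.asIdeal ∈ Ideal.primesOver v.asIdeal (𝓞 L) := ⟨P.isPrime, ⟨hP.symm⟩⟩
  have h2 : Q.asIdeal ∈ Ideal.primesOver v.asIdeal (𝓞 L) := ⟨Q.isPrime, ⟨hQ.symm⟩⟩
  have : FiniteDimensional k L := Module.Finite.of_restrictScalars_finite ℚ k L
  obtain ⟨σ, hσ⟩ := Ideal.exists_comap_galRestrict_eq (𝓞 k) k L (𝓞 L) h1 h2
  refine ⟨σ⁻¹, ?_⟩
  ext x
  rw [← hσ, mem_act, Ideal.mem_comap]
  have : (RingOfIntegers.mapRingEquiv (σ⁻¹ : L ≃ₐ[k] L).toRingEquiv).symm x =
      galRestrict (𝓞 k) k L (𝓞 L) σ x := by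
    apply RingOfIntegers.ext
    have := algebraMap_galRestrict_apply (𝓞 k) (K := k) (L := L) (B := 𝓞 L) σ x
    exact this.symm
  rw [this]

end gal

/-! ### Valuations in extensions -/

section ext

variable {M E : Type*} [Field M] [NumberField M] [Field E] [NumberField E] [Algebra M E]

theorem liesOver_of_over {P : HeightOneSpectrum (𝓞 E)} {v : HeightOneSpectrum (𝓞 M)}
    (h : Over P v) : P.asIdeal.LiesOver v.asIdeal := ⟨h.symm⟩

theorem over_of_liesOver {P : HeightOneSpectrum (𝓞 E)} {v : HeightOneSpectrum (𝓞 M)}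
    (h : P.asIdeal.LiesOver v.asIdeal) : Over P v := h.over.symm

/-- `w(x) = v(x)^e`. -/
theorem val_over {P : HeightOneSpectrum (𝓞 E)} {v : HeightOneSpectrum (𝓞 M)}
    (h : Over P v) (x : M) :
    P.valuation E (algebraMap M E x) =
      v.valuation M x ^ (v.asIdeal.ramificationIdx' P.asIdeal) := by
  have := liesOver_of_over h
  exact (HeightOneSpectrum.valuation_liesOver E v P x).symm

theorem over_unique {P : HeightOneSpectrum (𝓞 E)} {v w : HeightOneSpectrum (𝓞 M)}
    (h : Over P v) (h' : Over P w) : v = w := by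
  ext1
  rw [← h, ← h']

end ext

end Pool.Agent.TeamU
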